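import Pool.Agent.H22.VM.Targets

set_option autoImplicit false

namespace Pool.Agent.H49.VM

open Finset Pool.Agent.H22.VM

theorem bn : T_BN := by
  intro p s z hp hs
  classical
  haveI : Nonempty (Fin p) := ⟨⟨0, by omega⟩⟩
  obtain ⟨c0, -, hc0⟩ := Finset.exists_max_image (Finset.univ : Finset (Fin p))
    (fun c => ‖z c‖) Finset.univ_nonempty
  have hmax : ∀ c, ‖z c‖ ≤ ‖z c0‖ := fun c => hc0 c (Finset.mem_univ c)
  have h2s : (0:ℝ) ≤ 2 * s := by linarith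
  have hp0 : (0:ℝ) < p := by exact_mod_cast (by omega : 0 < p)
  have hsecond : 0 ≤ (p : ℝ) ^ (2 * s + 2) *
      ∑ c, ∑ c' ∈ univ.filter (fun c' => c' ≠ c), ‖z c'‖ ^ (2 : ℝ) * ‖z c‖ ^ (2 * s - 2) := by
    refine mul_nonneg (Real.rpow_nonneg hp0.le _) (Finset.sum_nonneg fun c _ =>
      Finset.sum_nonneg fun c' _ => mul_nonneg (Real.rpow_nonneg (norm_nonneg _) _)
        (Real.rpow_nonneg (norm_nonneg _) _))
  have hfirst : 0 ≤ (2:ℝ) ^ (2 * s) * ∑ c, ‖z c‖ ^ (2 * s) := by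
    refine mul_nonneg (Real.rpow_nonneg (by norm_num) _) (Finset.sum_nonneg fun c _ =>
      Real.rpow_nonneg (norm_nonneg _) _)
  have hsum : ‖∑ c, z c‖ ≤ ‖z c0‖ + ∑ c ∈ univ.erase c0, ‖z c‖ := by
    rw [← Finset.add_sum_erase _ _ (Finset.mem_univ c0)]
    exact (norm_add_le _ _).trans (by gcongr; exact norm_sum_le _ _)
  by_cases hcase : ∑ c ∈ univ.erase c0, ‖z c‖ ≤ ‖z c0‖
  · have h1 : ‖∑ c, z c‖ ≤ 2 * ‖z c0‖ := by linarith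
    have h2 : ‖∑ c, z c‖ ^ (2 * s) ≤ (2 * ‖z c0‖) ^ (2 * s) :=
      Real.rpow_le_rpow (norm_nonneg _) h1 h2s
    rw [Real.mul_rpow (by norm_num) (norm_nonneg _)] at h2
    have h3 : ‖z c0‖ ^ (2 * s) ≤ ∑ c, ‖z c‖ ^ (2 * s) :=
      Finset.single_le_sum (f := fun c => ‖z c‖ ^ (2 * s))
        (fun c _ => Real.rpow_nonneg (norm_nonneg _) _) (Finset.mem_univ c0)
    have h4 : (2:ℝ) ^ (2 * s) * ‖z c0‖ ^ (2 * s) ≤ 2 ^ (2 * s) * ∑ c, ‖z c‖ ^ (2 * s) :=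
      mul_le_mul_of_nonneg_left h3 (Real.rpow_nonneg (by norm_num) _)
    linarith
  · push Not at hcase
    -- some other coordinate is at least ‖z c0‖ / p
    have hex : ∃ c' ∈ univ.erase c0, ‖z c0‖ ≤ p * ‖z c'‖ := by
      by_contra hcon
      push Not at hcon
      have hcard : ((univ.erase c0 : Finset (Fin p)).card : ℝ) ≤ p := by
        have : (univ.erase c0 : Finset (Fin p)).card ≤ p := by
          simpa using (Finset.card_le_univ (univ.erase c0 : Finset (Fin p)))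
        exact_mod_cast this
      have h1 : ∑ c ∈ univ.erase c0, (p * ‖z c‖) ≤ ∑ _c ∈ univ.erase c0, ‖z c0‖ :=
        Finset.sum_le_sum fun c hc => (hcon c hc).le
      rw [← Finset.mul_sum, Finset.sum_const, nsmul_eq_mul] at h1
      have h2 : (p:ℝ) * ‖z c0‖ < p * ∑ c ∈ univ.erase c0, ‖z c‖ :=
        mul_lt_mul_of_pos_left hcase hp0
      have h3 : ((univ.erase c0 : Finset (Fin p)).card : ℝ) * ‖z c0‖ ≤ p * ‖z c0‖ :=
        mul_le_mul_of_nonneg_right hcard (norm_nonneg _)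
      linarith
    obtain ⟨c', hc', hz⟩ := hex
    have hne : c' ≠ c0 := Finset.ne_of_mem_erase hc'
    have h1 : ‖∑ c, z c‖ ≤ p * ‖z c0‖ := by
      calc ‖∑ c, z c‖ ≤ ∑ c, ‖z c‖ := norm_sum_le _ _
        _ ≤ ∑ _c : Fin p, ‖z c0‖ := Finset.sum_le_sum fun c _ => hmax c
        _ = p * ‖z c0‖ := by simp
    have h2 : ‖∑ c, z c‖ ^ (2 * s) ≤ (p * ‖z c0‖) ^ (2 * s) :=
      Real.rpow_le_rpow (norm_nonneg _) h1 h2s
    rw [Real.mul_rpow hp0.le (norm_nonneg _)] at h2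
    have h3 : ‖z c0‖ ^ (2 * s) ≤ (p:ℝ) ^ (2:ℝ) * (‖z c'‖ ^ (2:ℝ) * ‖z c0‖ ^ (2 * s - 2)) := by
      by_cases h0 : ‖z c0‖ = 0
      · rw [h0, Real.zero_rpow (by linarith)]
        exact mul_nonneg (Real.rpow_nonneg hp0.le _) (mul_nonneg (Real.rpow_nonneg (norm_nonneg _) _)
          (Real.rpow_nonneg le_rfl _))
      · have hpos : 0 < ‖z c0‖ := lt_of_le_of_ne (norm_nonneg _) (Ne.symm h0)
        have h4 : ‖z c0‖ ^ (2 * s) = ‖z c0‖ ^ (2:ℝ) * ‖z c0‖ ^ (2 * s - 2) := by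
          rw [← Real.rpow_add hpos]; ring_nf
        rw [h4, ← mul_assoc, ← Real.mul_rpow hp0.le (norm_nonneg _)]
        exact mul_le_mul_of_nonneg_right (Real.rpow_le_rpow (norm_nonneg _) hz (by norm_num))
          (Real.rpow_nonneg (norm_nonneg _) _)
    have h5 : ‖z c'‖ ^ (2 : ℝ) * ‖z c0‖ ^ (2 * s - 2) ≤
        ∑ c, ∑ c' ∈ univ.filter (fun c' => c' ≠ c), ‖z c'‖ ^ (2 : ℝ) * ‖z c‖ ^ (2 * s - 2) := by
      have hnn : ∀ c c' : Fin p, 0 ≤ ‖z c'‖ ^ (2 : ℝ) * ‖z c‖ ^ (2 * s - 2) := fun c c' =>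
        mul_nonneg (Real.rpow_nonneg (norm_nonneg _) _) (Real.rpow_nonneg (norm_nonneg _) _)
      have h6 : ‖z c'‖ ^ (2 : ℝ) * ‖z c0‖ ^ (2 * s - 2) ≤
          ∑ c' ∈ univ.filter (fun c' => c' ≠ c0), ‖z c'‖ ^ (2 : ℝ) * ‖z c0‖ ^ (2 * s - 2) :=
        Finset.single_le_sum (f := fun c' => ‖z c'‖ ^ (2 : ℝ) * ‖z c0‖ ^ (2 * s - 2))
          (fun c _ => hnn c0 c) (by simp [hne])
      exact h6.trans (Finset.single_le_sum
        (f := fun c => ∑ c' ∈ univ.filter (fun c' => c' ≠ c),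
          ‖z c'‖ ^ (2 : ℝ) * ‖z c‖ ^ (2 * s - 2))
        (fun c _ => Finset.sum_nonneg fun c' _ => hnn c c') (Finset.mem_univ c0))
    have h7 : (p:ℝ) ^ (2 * s + 2) = (p:ℝ) ^ (2 * s) * (p:ℝ) ^ (2:ℝ) := by
      rw [Real.rpow_add hp0]
    calc ‖∑ c, z c‖ ^ (2 * s) ≤ (p:ℝ) ^ (2 * s) * ‖z c0‖ ^ (2 * s) := h2
      _ ≤ (p:ℝ) ^ (2 * s) * ((p:ℝ) ^ (2:ℝ) * (‖z c'‖ ^ (2:ℝ) * ‖z c0‖ ^ (2 * s - 2))) :=
          mul_le_mul_of_nonneg_left h3 (Real.rpow_nonneg hp0.le _)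
      _ = (p:ℝ) ^ (2 * s + 2) * (‖z c'‖ ^ (2:ℝ) * ‖z c0‖ ^ (2 * s - 2)) := by
          rw [h7]; ring
      _ ≤ (p:ℝ) ^ (2 * s + 2) * ∑ c, ∑ c' ∈ univ.filter (fun c' => c' ≠ c),
            ‖z c'‖ ^ (2 : ℝ) * ‖z c‖ ^ (2 * s - 2) :=
          mul_le_mul_of_nonneg_left h5 (Real.rpow_nonneg hp0.le _)
      _ ≤ _ := by linarith

end Pool.Agent.H49.VM
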